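import Pool.Agent.Lib.LB.Poly

/-! A rational family of projectors has a denominator that vanishes on finitely many complex
hyperplanes only. -/

set_option autoImplicit false

open Set Filter Topology Module Polynomial

noncomputable section

namespace Pool.Agent.Lib.LC49

open Pool.Agent.Lib.LB

theorem den {R K ι : Type} [CommRing R] [IsDomain R] [Field K] [Algebra R K] [IsFractionRing R K]
    [Fintype ι] (P : ι → K[X]) : ∃ b : R, b ≠ 0 ∧ ∃ p : ι → R[X],
      ∀ i, (p i).map (algebraMap R K) = C (algebraMap R K b) * P i := by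
  classical
  choose b hb e using fun i => IsLocalization.integerNormalization_spec (nonZeroDivisors R) (P i)
  refine ⟨∏ i, b i, Finset.prod_ne_zero_iff.2 fun i _ => nonZeroDivisors.ne_zero (hb i),
    fun i => C (∏ j ∈ Finset.univ.erase i, b j) *
      IsLocalization.integerNormalization (nonZeroDivisors R) (P i), fun i => ?_⟩
  rw [Polynomial.map_mul, e, map_C, ← Finset.prod_erase_mul _ _ (Finset.mem_univ i), map_mul, map_mul,
    mul_assoc, ← IsScalarTower.algebraMap_smul K, smul_eq_C_mul]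

theorem bez {R ι : Type} [CommRing R] [IsDomain R] [Fintype ι] (f : ι → R[X]) (h : ∃ i, f i ≠ 0) :
    ∃ (q a : ι → R[X]) (r : R), r ≠ 0 ∧ ∑ i, a i * q i = C r ∧ ∀ i j, f i * q j = f j * q i := by
  let K := FractionRing R
  have inj : Function.Injective (Polynomial.map (algebraMap R K)) :=
    map_injective _ (IsFractionRing.injective R K)
  let F : ι → K[X] := fun i => (f i).map (algebraMap R K)
  obtain ⟨g, hg⟩ := (IsPrincipalIdealRing.principal (Ideal.span (range F))).principal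
  have m1 : ∀ i, ∃ Q, Q * g = F i := fun i => Ideal.mem_span_singleton'.1
    ((le_of_eq hg) (Ideal.subset_span (mem_range_self i)))
  choose Q hQ using m1
  obtain ⟨A, hA⟩ : ∃ A : ι → K[X], ∑ i, A i * F i = g := Ideal.mem_span_range_iff_exists_fun.1
    (by rw [hg]; exact Submodule.mem_span_singleton_self g)
  have g0 : g ≠ 0 := by
    obtain ⟨i, hi⟩ := h
    rintro rfl
    exact hi (inj (by rw [Polynomial.map_zero]; exact (hQ i).symm.trans (mul_zero _)))
  have one : ∑ i, A i * Q i = 1 := mul_right_cancel₀ g0 (by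
    rw [Finset.sum_mul, one_mul]
    simp only [mul_assoc, hQ, hA])
  obtain ⟨b, b0, q, hq⟩ := den (R := R) Q
  obtain ⟨c, c0, a, ha⟩ := den (R := R) A
  refine ⟨q, a, c * b, mul_ne_zero c0 b0, inj ?_, fun i j => inj ?_⟩
  · rw [Polynomial.map_sum, map_C, map_mul, map_mul, ← mul_one (C _ * C _), ← one, Finset.mul_sum]
    refine Finset.sum_congr rfl fun i _ => ?_
    rw [Polynomial.map_mul, ha, hq]
    ring
  · have e := fun i => (hQ i).symm
    simp only [F] at e
    rw [Polynomial.map_mul, Polynomial.map_mul, hq, hq, e, e]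
    ring

section

variable {V F : Type} [NormedAddCommGroup V] [NormedSpace ℝ V] [NormedAddCommGroup F]
  [NormedSpace ℝ F]

theorem pl_sum {ι : Type} (s : Finset ι) {f : ι → V → F} (h : ∀ i, Pl (f i)) :
    Pl fun x => ∑ i ∈ s, f i x := by
  classical
  induction s using Finset.induction_on with
  | empty => exact (Pl.const 0).congr fun x => by simp
  | insert a s ha ih => exact ((h a).add ih).congr fun x => by rw [Finset.sum_insert ha]

/-- Polynomial functions that are constant in the direction `e`. -/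
def Inv (e : V) : Subalgebra ℝ (V → ℝ) where
  carrier := {f | Pl f ∧ ∀ (y : V) (t : ℝ), f (y + t • e) = f y}
  mul_mem' h h' := ⟨h.1.smul h'.1, fun y t => by simp only [Pi.mul_apply, h.2, h'.2]⟩
  add_mem' h h' := ⟨h.1.add h'.1, fun y t => by simp only [Pi.add_apply, h.2, h'.2]⟩
  algebraMap_mem' c := ⟨Pl.const c, fun _ _ => rfl⟩

theorem inv_dom (e : V) : IsDomain (Inv e) := by
  have : NoZeroDivisors (Inv e) := ⟨fun {f g} h => by
    by_cases hf : ∃ x, f.1 x ≠ 0
    · exact Or.inr (Subtype.ext (funext (Pl.cancel f.2.1 g.2.1 hf fun x =>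
        congrFun (congrArg Subtype.val h) x)))
    · exact Or.inl (Subtype.ext (funext fun x => not_not.1 fun n => hf ⟨x, n⟩))⟩
  exact NoZeroDivisors.to_isDomain _

/-- Evaluation of a polynomial at the coordinate `l`. -/
def ev (e : V) (l : V →L[ℝ] ℝ) : (Inv e)[X] →+* (V → ℝ) :=
  eval₂RingHom (Inv e).val.toRingHom fun y => l y

theorem ev_C (e : V) (l : V →L[ℝ] ℝ) (a : Inv e) : ev e l (C a) = a.1 := by simp [ev]
theorem ev_X (e : V) (l : V →L[ℝ] ℝ) : ev e l X = fun y => l y := by simp [ev]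

theorem ev_pl [FiniteDimensional ℝ V] (e : V) (l : V →L[ℝ] ℝ) (P : (Inv e)[X]) : Pl (ev e l P) := by
  induction P using Polynomial.induction_on with
  | C a => rw [ev_C]; exact a.2.1
  | add p q hp hq => rw [map_add]; exact hp.add hq
  | monomial n a h =>
    rw [pow_succ, ← mul_assoc, map_mul, ev_X]
    exact h.smul (Pl.lin l)

theorem ev_onto [FiniteDimensional ℝ V] {e : V} {l : V →L[ℝ] ℝ} (hl : l e = 1) {f : V → ℝ}
    (h : Pl f) : ∃ P, ev e l P = f := by
  obtain ⟨d, h⟩ := h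
  induction h with
  | const d c => exact ⟨C ⟨fun _ => c, Pl.const c, fun _ _ => rfl⟩, ev_C _ _ _⟩
  | add _ _ ih ih' =>
    obtain ⟨P, rfl⟩ := ih
    obtain ⟨Q, rfl⟩ := ih'
    exact ⟨P + Q, map_add _ _ _⟩
  | mul φ _ ih =>
    obtain ⟨P, rfl⟩ := ih
    refine ⟨(C ⟨fun y => (φ - φ e • l) y, Pl.lin _, fun y t => by simp [hl]; ring⟩ +
      C ⟨fun _ => φ e, Pl.const _, fun _ _ => rfl⟩ * X) * P, funext fun y => ?_⟩
    simp [ev_C, ev_X]

/-- A representation whose common zeros lie in a hypersurface ruled in the direction `e`. -/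
theorem red [FiniteDimensional ℝ V] [FiniteDimensional ℝ F] {δ : V → ℝ} {M : V → F} (hδ : Pl δ)
    (hM : Pl M) (h0 : ∃ y, δ y ≠ 0) {e : V} {l : V →L[ℝ] ℝ} (hl : l e = 1) :
    ∃ (δ' r : V → ℝ) (M' : V → F), Pl δ' ∧ Pl r ∧ Pl M' ∧ (∃ y, r y ≠ 0) ∧
      (∀ (y : V) (t : ℝ), r (y + t • e) = r y) ∧ (∀ y, δ y • M' y = δ' y • M y) ∧
      ∀ y, δ' y = 0 → M' y = 0 → r y = 0 := by
  have := inv_dom e
  let b := finBasis ℝ F
  let g : Option (Fin (finrank ℝ F)) → V → ℝ := fun i =>
    i.elim δ fun j y => LinearMap.toContinuousLinearMap (b.coord j) (M y)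
  have hg : ∀ i, Pl (g i) := fun i => by
    cases i with
    | none => exact hδ
    | some j => exact hM.post _
  choose f hf using fun i => ev_onto hl (hg i)
  obtain ⟨q, a, r, r0, e1, e2⟩ := bez f ⟨none, fun n => by
    obtain ⟨y, hy⟩ := h0
    have := congrFun (hf none) y
    rw [n, map_zero] at this
    exact hy this.symm⟩
  refine ⟨ev e l (q none), r.1, fun y => ∑ j, ev e l (q (some j)) y • b j, ev_pl _ _ _, r.2.1,
    pl_sum _ fun j => (ev_pl _ _ _).smul (Pl.const _), ?_, r.2.2, fun y => ?_, fun y h1 h2 => ?_⟩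
  · by_contra n
    exact r0 (Subtype.ext (funext fun x => not_not.1 fun m => n ⟨x, m⟩))
  · conv_rhs => rw [← b.sum_repr (M y)]
    simp only [Finset.smul_sum, smul_smul]
    refine Finset.sum_congr rfl fun j _ => ?_
    have := congrFun (congrArg (ev e l) (e2 none (some j))) y
    rw [map_mul, map_mul, hf, hf] at this
    rw [show δ y * _ = _ from this, mul_comm]
    rfl
  · have z : ∀ i, ev e l (q i) y = 0 := fun i => by
      cases i with
      | none => exact h1
      | some j => exact Fintype.linearIndependent_iff.1 b.linearIndependent _ h2 j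
    have := congrFun (congrArg (ev e l) e1) y
    rw [ev_C, map_sum, Finset.sum_apply] at this
    rw [← this]
    exact Finset.sum_eq_zero fun i _ => by rw [map_mul, Pi.mul_apply, z, mul_zero]

end

/-- A polynomial vanishes on finitely many hyperplanes. -/
theorem hyp {V : Type} [NormedAddCommGroup V] [InnerProductSpace ℝ V] (d : ℕ) : ∀ r : V → ℝ,
    IsPol d r → (∃ y, r y ≠ 0) → ∃ B : Set V, B.Finite ∧ ∀ η : V, η ≠ 0 →
      (∀ y, inner ℝ η y = 0 → r y = 0) → ∃ b ∈ B, ∃ t : ℝ, η = t • b := by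
  induction d using Nat.strong_induction_on with
  | _ d ih =>
  intro r hr ⟨y0, hy0⟩
  by_cases hs : ∃ μ : V, μ ≠ 0 ∧ ∀ y, inner ℝ μ y = 0 → r y = 0
  swap
  · exact ⟨∅, finite_empty, fun η h h' => absurd ⟨η, h, h'⟩ hs⟩
  obtain ⟨μ, m0, hm⟩ := hs
  obtain ⟨g, g1, g2, g3⟩ := hr.div m0 hm
  have gy : g y0 ≠ 0 := fun n => hy0 (by rw [g1, n, smul_zero])
  cases d with
  | zero => exact absurd (g2 rfl y0) gy
  | succ d =>
  obtain ⟨B, B1, B2⟩ := ih d (Nat.lt_succ_self d) g (g3 d rfl) ⟨y0, gy⟩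
  refine ⟨insert μ B, B1.insert μ, fun η h h' => ?_⟩
  by_cases hc : ∃ y, inner ℝ η y = 0 ∧ inner ℝ μ y ≠ 0
  · obtain ⟨b, hb, e⟩ := B2 η h fun y hy => by
      have pm : Pl fun y : V => inner ℝ μ y :=
        ⟨1, (IsPol.mul (d := 0) (innerSL ℝ μ) (IsPol.const 0 (1 : ℝ))).congr fun x => by simp⟩
      refine closure_minimal (fun z hz => ?_)
        (isClosed_eq (Pl.continuous ⟨d, g3 d rfl⟩) continuous_const) (pm.dense_perp hc hy)
      have := h' z hz.1
      rw [g1] at this
      exact (smul_eq_zero.1 this).resolve_left hz.2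
    exact ⟨b, mem_insert_of_mem _ hb, e⟩
  · push Not at hc
    have n : inner ℝ η η ≠ 0 := inner_self_ne_zero.2 h
    obtain ⟨s, hs⟩ : ∃ s, s = inner ℝ η μ / inner ℝ η η := ⟨_, rfl⟩
    have e1 : inner ℝ η (μ - s • η) = 0 := by
      rw [inner_sub_right, inner_smul_right, hs, div_mul_cancel₀ _ n, sub_self]
    have e2 : μ - s • η = 0 := (inner_self_eq_zero (𝕜 := ℝ)).1 (by
      rw [inner_sub_left, real_inner_smul_left, e1, hc _ e1, mul_zero, sub_zero])
    rw [sub_eq_zero] at e2
    have s0 : s ≠ 0 := fun n => m0 (by rw [e2, n, zero_smul])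
    exact ⟨μ, mem_insert _ _, s⁻¹, by rw [e2, inv_smul_smul₀ s0]⟩

theorem sat {V : Type} [NormedAddCommGroup V] [InnerProductSpace ℂ V] [FiniteDimensional ℂ V]
    {δ : V → ℝ} {M : V → V →L[ℝ] V} (hδ : Pl δ) (hM : Pl M) (h0 : ∃ y, δ y ≠ 0)
    (hMM : ∀ y v, M y (M y v) = δ y • M y v)
    (hs : ∀ y u v, (inner ℂ (M y u) v).re = (inner ℂ u (M y v)).re) :
    ∃ (δ' : V → ℝ) (M' : V → V →L[ℝ] V) (Bd : Set V), Pl δ' ∧ Pl M' ∧
      (∀ y, δ y • M' y = δ' y • M y) ∧ Bd.Finite ∧
      ∀ ξ : V, ξ ≠ 0 → (∀ b ∈ Bd, ∀ c : ℂ, ξ ≠ c • b) → ∃ y, inner ℂ ξ y = 0 ∧ δ' y ≠ 0 := by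
  let _ : InnerProductSpace ℝ V := InnerProductSpace.complexToReal
  have ri : ∀ u v : V, inner ℝ u v = (inner ℂ u v).re := fun _ _ => rfl
  let b := finBasis ℝ V
  choose d r N pd pr pN r0 ri' cr z using fun i => red hδ hM h0 (e := b i)
    (l := LinearMap.toContinuousLinearMap (b.coord i)) (by simp)
  have zz : ∀ i y, d i y = 0 → r i y = 0 := fun i y hy => z i y hy (by
    ext v
    have p : Pl fun y => inner ℝ (N i y v) (N i y v) - d i y * inner ℝ v (N i y v) :=
      (((pN i).app (Pl.const v)).inner ((pN i).app (Pl.const v))).sub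
        ((pd i).smul ((Pl.const v).inner ((pN i).app (Pl.const v))))
    have k := Pl.cancel hδ p h0 (Pl.cancel hδ (hδ.smul p) h0 fun y => by
      have c1 : δ y • N i y v = d i y • M y v := congrArg (· v) (cr i y)
      have c2 : inner ℝ (M y v) (M y v) = δ y * inner ℝ v (M y v) := by
        rw [ri, hs, ← ri, hMM, inner_smul_right]
      have c3 := congrArg (fun w => inner ℝ w w) c1
      have c4 := congrArg (fun w => inner ℝ v w) c1
      simp only [real_inner_smul_left, inner_smul_right] at c3 c4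
      simp only [smul_eq_mul]
      linear_combination c3 - δ y * d i y * c4 + d i y ^ 2 * c2) y
    rw [hy, zero_mul, sub_zero] at k
    exact inner_self_eq_zero.1 k)
  choose B B1 B2 using fun i => (pr i).elim fun n hn => hyp n (r i) hn (r0 i)
  refine ⟨fun y => ∑ i, d i y * d i y, fun y => ∑ i, d i y • N i y, ⋃ i, B i,
    pl_sum _ fun i => (pd i).smul (pd i), pl_sum _ fun i => (pd i).smul (pN i), fun y => ?_,
    finite_iUnion B1, fun ξ x0 hb => ?_⟩
  · rw [Finset.smul_sum, Finset.sum_smul]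
    exact Finset.sum_congr rfl fun i _ => by rw [smul_comm, cr, smul_smul]
  by_contra n
  push Not at n
  obtain ⟨i, hi⟩ : ∃ i, inner ℂ ξ (b i) ≠ 0 := by
    by_contra m
    push Not at m
    refine x0 (inner_self_eq_zero (𝕜 := ℂ).1 ?_)
    conv_lhs => enter [3]; rw [← b.sum_repr ξ]
    rw [inner_sum]
    exact Finset.sum_eq_zero fun i _ => by rw [inner_smul_right_eq_smul, m, smul_zero]
  obtain ⟨a, ha⟩ : ∃ a, a = inner ℂ ξ (b i) := ⟨_, rfl⟩
  rw [← ha] at hi
  have c0 : Complex.I * a ≠ 0 := mul_ne_zero Complex.I_ne_zero hi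
  obtain ⟨β, hβ, t, ht⟩ := B2 i ((Complex.I * a) • ξ) (smul_ne_zero c0 x0) fun y hy => by
    have e1 : (inner ℂ ξ y / a).im = 0 := by
      rw [ri, inner_smul_left] at hy
      have : (inner ℂ ξ y * (starRingEnd ℂ) a).im = 0 := by
        simp at hy ⊢
        linarith
      rw [div_eq_mul_inv, Complex.inv_def, ← mul_assoc, Complex.im_mul_ofReal, this, zero_mul]
    have e2 : inner ℂ ξ (y + (-(inner ℂ ξ y / a).re) • b i) = 0 := by
      have : (((inner ℂ ξ y / a).re : ℝ) : ℂ) = inner ℂ ξ y / a :=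
        Complex.ext (by simp) (by simp [e1])
      rw [inner_add_right, inner_smul_right_eq_smul, ← ha, Complex.real_smul, Complex.ofReal_neg,
        this]
      field_simp
      ring
    rw [← ri' i y (-(inner ℂ ξ y / a).re)]
    refine zz i _ (mul_self_eq_zero.1 ?_)
    exact (Finset.sum_eq_zero_iff_of_nonneg fun i _ => mul_self_nonneg _).1 (n _ e2) i
      (Finset.mem_univ i)
  refine hb β (mem_iUnion.2 ⟨i, hβ⟩) ((Complex.I * a)⁻¹ * t) ?_
  rw [mul_smul, Complex.coe_smul, ← ht, inv_smul_smul₀ c0]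

end Pool.Agent.Lib.LC49
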